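import Pool.Agent.KS7_39.A13.A

namespace Pool.Agent.KS7_39.A13

open Set Filter Topology Metric MvPowerSeries Finsupp

variable {σ : Type} [Fintype σ] [DecidableEq σ] [Nonempty σ]
  {𝕜 : Type} [NontriviallyNormedField 𝕜]

lemma dec (f : MvPowerSeries σ 𝕜) : ∃ h : σ → MvPowerSeries σ 𝕜,
    f = C (coeff 0 f) + ∑ i, monomial (single i 1) 1 * h i := by
  have : ∀ J : σ →₀ ℕ, ∃ i, J ≠ 0 → 1 ≤ J i := fun J => by
    by_contra! h
    exact (h (Classical.arbitrary σ)).1 (Finsupp.ext fun i => Nat.lt_one_iff.1 (h i).2)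
  choose κ hκ using this
  refine ⟨fun i L => if κ (L + single i 1) = i then coeff (L + single i 1) f else 0, ?_⟩
  ext J
  simp only [map_add, map_sum, coeff_C, coeff_monomial_mul, single_le_iff, one_mul]
  split_ifs with h
  · simp [h]
  · rw [Finset.sum_eq_single (κ J) (fun i _ n => ?_) (by simp), if_pos (hκ J h), zero_add,
      coeff_apply _ (J - _), tsub_add_cancel_of_le (single_le_iff.2 (hκ J h)), if_pos rfl]
    split_ifs with l
    · rw [coeff_apply _ (J - _), tsub_add_cancel_of_le (single_le_iff.2 l), if_neg n.symm]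
    · rfl

variable {E : Type} [NormedAddCommGroup E] [CompleteSpace E] [Module 𝕜 E]

lemma tree {ι : E →ₗ[𝕜] MvPowerSeries σ 𝕜} (hi : Function.Injective ι)
    {m : (σ →₀ ℕ) → E →L[𝕜] E} (hm : ∀ J b, ι (m J b) = monomial J 1 * ι b)
    {c : (σ →₀ ℕ) → E} {ε : (σ →₀ ℕ) → ℝ} (hε : Summable ε)
    (hc : ∀ J L, L ≤ J → ‖m L (c J)‖ ≤ ε J) (I : σ →₀ ℕ) :
    HasSum (fun J => coeff I (monomial J 1 * ι (c J))) (coeff I (ι (∑' J, m J (c J)))) := by
  have : ∀ J : σ →₀ ℕ, ∃ i, ¬ J ≤ I → I i + 1 ≤ J i := fun J => by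
    by_contra! h
    exact (h (Classical.arbitrary σ)).1 fun i => Nat.lt_succ_iff.1 (h i).2
  choose κ hκ using this
  let g : σ → (σ →₀ ℕ) → E := fun i J =>
    if ¬ J ≤ I ∧ κ J = i then m (J - single i (I i + 1)) (c J) else 0
  have sg : ∀ i, Summable (g i) := fun i => .of_norm_bounded hε fun J => by
    simp only [g]
    split_ifs
    · exact hc _ _ tsub_le_self
    · rw [norm_zero]; exact (norm_nonneg _).trans (hc J J le_rfl)
  have h1 := hasSum_sum (s := Finset.univ) fun i _ =>
    (sg i).hasSum.mapL (m (single i (I i + 1)))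
  have h2 := hasSum_sum_of_ne_finset_zero (s := Finset.Iic I) (L := .unconditional _)
    (f := fun J => if J ≤ I then m J (c J) else 0) fun J hJ => if_neg (by simpa using hJ)
  have h3 : ∀ J, (if J ≤ I then m J (c J) else 0) + ∑ i, m (single i (I i + 1)) (g i J) =
      m J (c J) := fun J => by
    by_cases l : J ≤ I
    · simp [g, l]
    · rw [if_neg l, zero_add, Finset.sum_eq_single (κ J) (fun i _ n => by simp [g, n.symm])
        (by simp)]
      refine hi ?_
      simp only [g, l, not_false_iff, true_and, if_true, hm]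
      rw [← mul_assoc, monomial_mul_monomial, add_tsub_cancel_of_le (single_le_iff.2 (hκ J l)),
        one_mul]
  have h4 := h2.add h1
  simp only [h3] at h4
  rw [h4.tsum_eq]
  convert hasSum_sum_of_ne_finset_zero (s := Finset.Iic I) (L := .unconditional _) fun J hJ => ?_
  · simp only [map_add, map_sum, hm]
    rw [Finset.sum_eq_zero (s := Finset.univ) fun i _ => by
      rw [coeff_monomial_mul, if_neg (by rw [single_le_iff]; omega)], add_zero]
    exact Finset.sum_congr rfl fun J hJ => by rw [if_pos (Finset.mem_Iic.1 hJ), hm]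
  · rw [coeff_monomial_mul, if_neg (by simpa using hJ)]

variable {E' : Type} [NormedAddCommGroup E'] [CompleteSpace E'] [Module 𝕜 E']
  [ContinuousSMul 𝕜 E] [ContinuousSMul 𝕜 E'] [CompleteSpace 𝕜]

open scoped MvPowerSeries.WithPiTopology in
theorem main (ι : E →ₗ[𝕜] MvPowerSeries σ 𝕜) (hi : Function.Injective ι) (φ : E' ≃ₗ[𝕜] E)
    (hc : ∀ J, Continuous fun a => coeff J (ι a))
    (M : (σ →₀ ℕ) → E →L[𝕜] E) (hM : ∀ J b, ι (M J b) = monomial J 1 * ι b)
    (M' : (σ →₀ ℕ) → E' →L[𝕜] E') (hM' : ∀ J b, ι (φ (M' J b)) = monomial J 1 * ι (φ b))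
    (hw : ∀ a : E, a ≠ 0 → ∃ g : MvPowerSeries σ 𝕜, g * ι a ≠ 0 ∧
      ∃ L : E' →L[𝕜] E', ∀ b, ι (φ (L b)) = g * ι a * ι (φ b)) :
    Continuous φ ∧ Continuous φ.symm := by
  have hi' := hi.comp φ.injective
  let G := (φ : E' →ₗ[𝕜] E).graph.topologicalClosure
  let S := G.comap (LinearMap.inl 𝕜 E' E)
  have gc : IsClosed (G : Set (E' × E)) := isClosed_closure
  have sc : IsClosed (S : Set E') := gc.preimage (Continuous.prodMk_left 0)
  have gg : ∀ z, (φ.symm z, z) ∈ G := fun z => subset_closure (by simp)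
  have K : ∀ s ∈ S, ∀ f, ∀ ε > 0, ∃ y z, ‖y‖ ≤ ε ∧ ‖z‖ ≤ ε ∧ ι (φ y) + ι z = f * ι (φ s) := by
    intro s hs f ε ε0
    obtain ⟨η, η0, c, h1, h2⟩ := @posSumOfEncodable _ ε0 (σ →₀ ℕ) (Encodable.ofCountable _)
    have : ∀ J, ∃ a, ∀ L ≤ J, ‖M' L (coeff J f • s - a)‖ < η J ∧ ‖M L (φ a)‖ < η J := by
      intro J
      obtain ⟨⟨a, b⟩, h, k⟩ := ((mem_closure_iff_frequently.1
        (S.smul_mem (coeff J f) hs)).and_eventually
        (q := fun p => ∀ L ∈ Finset.Iic J, ‖M' L (coeff J f • s - p.1)‖ < η J ∧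
          ‖M L p.2‖ < η J) ((Finset.eventually_all _).2 fun L _ =>
        ((Continuous.tendsto' (by fun_prop) _ 0 (by simp)).eventually (gt_mem_nhds (η0 J))).and
        ((Continuous.tendsto' (by fun_prop) _ 0 (by simp)).eventually (gt_mem_nhds (η0 J))))).exists
      obtain rfl : b = φ a := h
      exact ⟨a, fun L l => k L (Finset.mem_Iic.2 l)⟩
    choose a ha using this
    refine ⟨_, _, (tsum_of_norm_bounded h1 fun J => (ha J J le_rfl).1.le).trans h2,
      (tsum_of_norm_bounded h1 fun J => (ha J J le_rfl).2.le).trans h2, ?_⟩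
    ext I
    refine ((tree (ι := ι ∘ₗ φ.toLinearMap) hi' hM' h1.summable
      (fun J L l => (ha J L l).1.le) I).add (tree hi hM h1.summable
      (fun J L l => (ha J L l).2.le) I)).unique ?_
    refine (WithPiTopology.hasSum_iff_hasSum_coeff.1 ((WithPiTopology.hasSum_of_monomials_self
      f).mul_right (ι (φ s))) I).congr_fun fun J => ?_
    rw [← map_add, ← mul_add, show monomial J (coeff J f) = coeff J f • monomial J (1 : 𝕜) by
      rw [← map_smul]; simp]
    simp
  have id : ∀ s ∈ S, ∀ f, ∃ t ∈ S, ι (φ t) = f * ι (φ s) := fun s hs f => by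
    obtain ⟨y, z, -, -, e⟩ := K s hs f 1 one_pos
    refine ⟨y + φ.symm z, Metric.mem_closure_iff.2 fun ε ε0 => ?_, by simpa using e⟩
    obtain ⟨y', z', h1, h2, e'⟩ := K s hs f _ (half_pos ε0)
    have : y + φ.symm z = y' + φ.symm z' := hi' (by simp [e, e'])
    refine ⟨(φ.symm z', z'), by simp, ?_⟩
    simp only [this, LinearMap.inl_apply, Prod.dist_eq, dist_add_self_left, dist_zero_left]
    exact (max_le h1 h2).trans_lt (half_lt_self ε0)
  have ms : ∀ J, ∀ s ∈ S, M' J s ∈ S := fun J s hs => by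
    obtain ⟨t, ht, e⟩ := id s hs (monomial J 1)
    rwa [hi' ((hM' J s).trans e.symm)]
  let N : Ideal (MvPowerSeries σ 𝕜) :=
    { carrier := {f | ∃ s ∈ S, ι (φ s) = f}
      zero_mem' := ⟨0, S.zero_mem, by simp⟩
      add_mem' := by
        rintro _ _ ⟨s, hs, rfl⟩ ⟨t, ht, rfl⟩
        exact ⟨s + t, S.add_mem hs ht, by simp⟩
      smul_mem' := by
        rintro f _ ⟨s, hs, rfl⟩
        exact id s hs f }
  obtain ⟨n, v, hv⟩ := Submodule.fg_iff_exists_fin_generating_family.1
    ((isNoetherianRing_iff_ideal_fg _).1 inferInstance N)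
  have : ∀ j, v j ∈ N := fun j => hv ▸ Submodule.subset_span ⟨j, rfl⟩
  choose g g1 g2 using this
  have := sc.completeSpace_coe
  let Φ : (Fin n → 𝕜) × (σ → S) →ₗ[𝕜] S :=
    { toFun p := ⟨∑ j, p.1 j • g j + ∑ i, M' (single i 1) (p.2 i), S.add_mem
        (S.sum_mem fun j _ => S.smul_mem _ (g1 j)) (S.sum_mem fun i _ => ms _ _ (p.2 i).2)⟩
      map_add' p q := Subtype.ext (by simp [add_smul, Finset.sum_add_distrib]; abel)
      map_smul' c p := Subtype.ext (by simp [mul_smul, Finset.smul_sum]) }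
  have cΦ : Continuous Φ := Continuous.subtype_mk (by fun_prop) _
  have sΦ : Function.Surjective Φ := fun s => by
    obtain ⟨c, e⟩ := (Submodule.mem_span_range_iff_exists_fun _).1
      (hv.ge (show ι (φ s) ∈ N from ⟨s, s.2, rfl⟩))
    choose h hh using fun j => dec (c j)
    have : ∀ i, ∑ j, h j i * v j ∈ N := fun i => N.sum_mem fun j _ =>
      N.mul_mem_left _ ⟨g j, g1 j, g2 j⟩
    choose t t1 t2 using this
    refine ⟨(fun j => coeff 0 (c j), fun i => ⟨t i, t1 i⟩), Subtype.ext (hi' ?_)⟩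
    simp only [Φ, LinearMap.coe_mk, AddHom.coe_mk, Function.comp, map_add, map_sum, map_smul,
      hM', g2, t2, ← e, Finset.mul_sum]
    rw [Finset.sum_comm (s := (Finset.univ : Finset σ)), ← Finset.sum_add_distrib]
    refine Finset.sum_congr rfl fun j _ => ?_
    conv_rhs => rw [hh j]
    simp [add_mul, Finset.sum_mul, mul_assoc, smul_eq_C_mul]
  have cs : ∀ J, Continuous fun s : S => coeff J (ι (φ s)) := fun J => by
    induction J using WellFoundedLT.induction with
    | ind J ih =>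
      rw [← (IsOpenQuotientMap.mk sΦ cΦ (omt Φ cΦ sΦ)).continuous_comp_iff]
      simp only [Φ, LinearMap.coe_mk, AddHom.coe_mk, Function.comp_def, map_add, map_sum, map_smul,
        hM', coeff_monomial_mul]
      refine .add (by fun_prop) (continuous_finsetSum _ fun i _ => ?_)
      split_ifs with l
      · have := ih (J - single i 1) (tsub_le_self.lt_of_ne fun e => by
          have := DFunLike.congr_fun e i
          have := single_le_iff.1 l
          simp at *
          omega)
        exact continuous_const.mul (this.comp (by fun_prop))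
      · fun_prop
  have s0 : ∀ s ∈ S, s = 0 := fun s hs => by_contra fun hne => by
    obtain ⟨g, hg, L, hL⟩ := hw (φ s) fun h => hne (by simpa using h)
    have ms' : ∀ b, L b ∈ S := fun b => by
      obtain ⟨t, ht, e⟩ := id s hs (g * ι (φ b))
      rwa [hi' ((hL b).trans ((by ring : g * ι (φ s) * ι (φ b) = g * ι (φ b) * ι (φ s)).trans
        e.symm))]
    have : g * ι (φ s) * ι (φ s) = 0 := MvPowerSeries.ext fun J => by
      have := closure_minimal (t := {p : E' × E | coeff J (ι (φ (L p.1))) =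
        coeff J (g * ι (φ s) * ι p.2)}) (s := ((φ : E' →ₗ[𝕜] E).graph : Set (E' × E)))
        (fun p (h : p.2 = φ p.1) => by simp [hL, h])
        (isClosed_eq ((cs J).comp (Continuous.subtype_mk (f := fun p : E' × E => L p.1)
          (by fun_prop) fun p => ms' p.1)) (by
            simp only [coeff_mul (φ := g * ι (φ s))]
            exact continuous_finsetSum _ fun p _ =>
              continuous_const.mul ((hc p.2).comp continuous_snd))) hs
      simpa [hL] using this
    rcases mul_eq_zero.1 this with h | h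
    · exact hg h
    · exact hg (by rw [h, mul_zero])
  have e : ∀ p : G, p.1.1 = φ.symm p.1.2 := fun p => sub_eq_zero.1 (s0 _ (by
    simpa [S, Prod.ext_iff, Prod.sub_def] using G.sub_mem p.2 (gg p.1.2)))
  have := gc.completeSpace_coe
  have c1 : Continuous ((LinearMap.fst 𝕜 E' E).domRestrict G) := continuous_subtype_val.fst
  have c2 : Continuous ((LinearMap.snd 𝕜 E' E).domRestrict G) := continuous_subtype_val.snd
  have s1 : Function.Surjective ((LinearMap.fst 𝕜 E' E).domRestrict G) := fun x =>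
    ⟨⟨_, gg (φ x)⟩, by simp⟩
  have s2 : Function.Surjective ((LinearMap.snd 𝕜 E' E).domRestrict G) := fun x => ⟨⟨_, gg x⟩, rfl⟩
  exact ⟨(IsOpenQuotientMap.mk s1 c1 (omt _ c1 s1)).continuous_comp_iff.1
    (c2.congr fun p => by simp [e]), (IsOpenQuotientMap.mk s2 c2 (omt _ c2 s2)).continuous_comp_iff.1
    (c1.congr fun p => by simp [e])⟩

end Pool.Agent.KS7_39.A13
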